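import Pool.Agent.Lib_helper62.AVM.BB
import Pool.Agent.Lib_helper66.AVM.QS

/-!
# Project AVM (MP_05dcdc_nt), block LA
-/

set_option autoImplicit false

namespace Pool.Agent.AVM

open Finset Filter Topology Pool.Agent.PQ Pool.Agent.GL

/-- the value `χ_p(q)^e` -/
noncomputable def la_f (p e q : ℕ) : ℂ := (qc p ^ e) (q : ZMod p)

theorem la_f_norm (p e q : ℕ) : ‖la_f p e q‖ ≤ 1 := DirichletCharacter.norm_le_one _ _

open Classical in
noncomputable def la_A (k : ℕ) (a : (Fin k → ℕ) → ℂ) (c : ℕ) (w : Fin (k + 1) → ℕ) : ℂ :=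
  if (Function.Injective (vv k w) ∧ ∀ i : Fin k, w i.castSucc % 4 = 1) ∧ mm k w % 8 = c then a (vv k w) else 0

open Classical in
noncomputable def la_B (k : ℕ) (e : Fin k → ℕ) (i0 : Fin k) (c : ℕ) (w : Fin (k + 1) → ℕ) : ℂ :=
  if qq k w % 4 = 3 ∧ (c * qq k w) % 8 = 3 then ∏ i ∈ univ.erase i0, la_f (w i.castSucc) (e i) (qq k w) else 0

theorem la_A_norm (k : ℕ) (a : (Fin k → ℕ) → ℂ) (ha : ∀ v, ‖a v‖ ≤ 1) (c : ℕ) (w : Fin (k + 1) → ℕ) :
    ‖la_A k a c w‖ ≤ 1 := by
  unfold la_A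
  split_ifs
  · exact ha _
  · simp

theorem la_B_norm (k : ℕ) (e : Fin k → ℕ) (i0 : Fin k) (c : ℕ) (w : Fin (k + 1) → ℕ) :
    ‖la_B k e i0 c w‖ ≤ 1 := by
  unfold la_B
  split_ifs
  · rw [norm_prod]
    exact Finset.prod_le_one (fun i _ => norm_nonneg _) (fun i _ => la_f_norm _ _ _)
  · simp

theorem la_good_iff (k : ℕ) (u : Fin (k + 1) → ℕ) :
    Good k u ↔ (Function.Injective (vv k u) ∧ ∀ i : Fin k, u i.castSucc % 4 = 1) ∧ qq k u % 4 = 3 ∧
      (mm k u * qq k u) % 8 = 3 := by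
  have hprod : ∏ i, u i = mm k u * qq k u := by
    rw [Fin.prod_univ_castSucc]; rfl
  unfold Good
  rw [hprod]
  constructor
  · rintro ⟨h1, h2, h3, h4⟩
    exact ⟨⟨fun i j hij => Fin.castSucc_injective k (h1 hij), h2⟩, h3, h4⟩
  · rintro ⟨⟨h1, h2⟩, h3, h4⟩
    refine ⟨?_, h2, h3, h4⟩
    intro x y
    refine Fin.lastCases ?_ (fun i => ?_) x
    · refine Fin.lastCases ?_ (fun j => ?_) y
      · intro _; rfl
      · intro h
        have := h2 j
        unfold qq at h3
        rw [← h] at this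
        omega
    · refine Fin.lastCases ?_ (fun j => ?_) y
      · intro h
        have := h2 i
        unfold qq at h3
        rw [h] at this
        omega
      · intro h
        have : i = j := h1 h
        rw [this]

theorem la_vv (k : ℕ) (u : Fin (k + 1) → ℕ) : vv k (Function.update u (Fin.last k) 0) = vv k u := by
  funext i
  simp [vv]

theorem la_mm (k : ℕ) (u : Fin (k + 1) → ℕ) : mm k (Function.update u (Fin.last k) 0) = mm k u := by
  simp [mm]

theorem la_upd (k : ℕ) (u : Fin (k + 1) → ℕ) (i : Fin k) :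
    Function.update u (Fin.last k) 0 i.castSucc = u i.castSucc := by
  rw [Function.update_of_ne (Fin.castSucc_lt_last i).ne]

theorem la_qq (k : ℕ) (u : Fin (k + 1) → ℕ) (i0 : Fin k) :
    qq k (Function.update u i0.castSucc 0) = qq k u := by
  simp [qq, Function.update_of_ne (Fin.castSucc_lt_last i0).ne']

theorem la_A_eq (k : ℕ) (a : (Fin k → ℕ) → ℂ) (c : ℕ) (u : Fin (k + 1) → ℕ) :
    la_A k a c (Function.update u (Fin.last k) 0) = la_A k a c u := by
  unfold la_A
  simp only [la_vv, la_mm, la_upd]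

theorem la_B_eq (k : ℕ) (e : Fin k → ℕ) (i0 : Fin k) (c : ℕ) (u : Fin (k + 1) → ℕ) :
    la_B k e i0 c (Function.update u i0.castSucc 0) = la_B k e i0 c u := by
  unfold la_B
  simp only [la_qq]
  congr 1
  refine Finset.prod_congr rfl fun i hi => ?_
  have hne : i.castSucc ≠ i0.castSucc := fun h => (Finset.ne_of_mem_erase hi) (Fin.castSucc_injective k h)
  rw [Function.update_of_ne hne]

open Classical in
theorem la_key (k : ℕ) (e : Fin k → ℕ) (i0 : Fin k) (a : (Fin k → ℕ) → ℂ) (u : Fin (k + 1) → ℕ) :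
    (if Good k u then a (vv k u) * ∏ i : Fin k, la_f (u i.castSucc) (e i) (qq k u) else 0) =
      ∑ c ∈ range 8, la_A k a c (Function.update u (Fin.last k) 0) *
        la_B k e i0 c (Function.update u i0.castSucc 0) * la_f (u i0.castSucc) (e i0) (u (Fin.last k)) := by
  simp only [la_A_eq, la_B_eq]
  rw [Finset.sum_eq_single (mm k u % 8)]
  · by_cases hg : Good k u
    · rw [if_pos hg]
      rw [la_good_iff] at hg
      obtain ⟨h1, h2, h3⟩ := hg
      have h4 : (mm k u % 8 * qq k u) % 8 = 3 := by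
        rw [Nat.mod_mul_mod]; exact h3
      have hA : la_A k a (mm k u % 8) u = a (vv k u) := by
        unfold la_A
        rw [if_pos ⟨h1, rfl⟩]
      have hB : la_B k e i0 (mm k u % 8) u = ∏ i ∈ univ.erase i0, la_f (u i.castSucc) (e i) (qq k u) := by
        unfold la_B
        rw [if_pos ⟨h2, h4⟩]
      rw [hA, hB, ← Finset.mul_prod_erase univ _ (Finset.mem_univ i0)]
      unfold qq
      ring
    · rw [if_neg hg]
      rw [la_good_iff] at hg
      symm
      by_cases h1 : Function.Injective (vv k u) ∧ ∀ i : Fin k, u i.castSucc % 4 = 1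
      · have hB : la_B k e i0 (mm k u % 8) u = 0 := by
          unfold la_B
          rw [if_neg]
          rintro ⟨h2, h3⟩
          rw [Nat.mod_mul_mod] at h3
          exact hg ⟨h1, h2, h3⟩
        rw [hB]; ring
      · have hA : la_A k a (mm k u % 8) u = 0 := by
          unfold la_A
          rw [if_neg]
          rintro ⟨h2, h3⟩
          exact h1 h2
        rw [hA]; ring
  · intro c _ hc
    have hA : la_A k a c u = 0 := by
      unfold la_A
      rw [if_neg]
      rintro ⟨h2, h3⟩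
      exact hc h3.symm
    rw [hA]; ring
  · intro h
    exact absurd (Finset.mem_range.mpr (Nat.mod_lt _ (by norm_num))) h

theorem la_pow_ne (p : ℕ) (hp : p.Prime) (h4 : p % 4 = 1) (e : ℕ) (he : e % 4 ≠ 0) : qc p ^ e ≠ 1 := by
  obtain ⟨h1, h2, h3, h5⟩ := qc_ne p hp h4
  have h6 : qc p ^ e = qc p ^ (e % 4) := by
    conv_lhs => rw [← Nat.div_add_mod e 4, pow_add, pow_mul, h5, one_pow, one_mul]
  rw [h6]
  have h7 : e % 4 < 4 := Nat.mod_lt _ (by norm_num)
  have h8 : e % 4 = 1 ∨ e % 4 = 2 ∨ e % 4 = 3 := by omega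
  rcases h8 with h | h | h
  · rw [h, pow_one]; exact h1
  · rw [h]; exact h2
  · rw [h]; exact h3

theorem la (k : ℕ) (e : Fin k → ℕ) (he : ∃ i, e i % 4 ≠ 0) (ε : ℝ) (hε : 0 < ε) : ∃ X₀ : ℕ, ∀ X : ℕ, X₀ ≤ X →
    ∀ a : (Fin k → ℕ) → ℂ, (∀ v, ‖a v‖ ≤ 1) →
    ‖∑ u ∈ GT k X, a (vv k u) * ∏ i : Fin k, (qc (u i.castSucc) ^ e i) (qq k u : ZMod (u i.castSucc))‖ ≤
      ε * LL k X := by
  classical
  obtain ⟨i0, hi0⟩ := he
  obtain ⟨n, rfl⟩ : ∃ n, k = n + 1 := ⟨k - 1, by have := i0.pos; omega⟩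
  obtain ⟨X₀, hX₀⟩ := bb n i0.castSucc (Fin.last (n + 1)) (Fin.castSucc_lt_last i0).ne (ε / 8) (by positivity)
  refine ⟨X₀, fun X hX a ha => ?_⟩
  have key : ∑ u ∈ GT (n + 1) X, a (vv (n + 1) u) *
      ∏ i : Fin (n + 1), (qc (u i.castSucc) ^ e i) (qq (n + 1) u : ZMod (u i.castSucc)) =
      ∑ c ∈ range 8, ∑ u ∈ Tup (n + 2) X, la_A (n + 1) a c (Function.update u (Fin.last (n + 1)) 0) *
        la_B (n + 1) e i0 c (Function.update u i0.castSucc 0) *
        la_f (u i0.castSucc) (e i0) (u (Fin.last (n + 1))) := by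
    rw [Finset.sum_comm, GT, Finset.sum_filter]
    refine Finset.sum_congr rfl fun u _ => ?_
    rw [← la_key]
    rfl
  rw [key]
  refine (norm_sum_le _ _).trans ?_
  have hb : ∀ c ∈ range 8, ‖∑ u ∈ Tup (n + 2) X, la_A (n + 1) a c (Function.update u (Fin.last (n + 1)) 0) *
        la_B (n + 1) e i0 c (Function.update u i0.castSucc 0) *
        la_f (u i0.castSucc) (e i0) (u (Fin.last (n + 1)))‖ ≤ ε / 8 * LL (n + 1) X := by
    intro c _
    refine hX₀ X hX (fun p => qc p ^ e i0) (la_A (n + 1) a c) (la_B (n + 1) e i0 c)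
      (la_A_norm _ _ ha _) (la_B_norm _ _ _ _) ?_
    intro u hu hne
    rw [la_A_eq] at hne
    have h4 : u i0.castSucc % 4 = 1 := by
      by_contra hcon
      apply hne
      unfold la_A
      rw [if_neg]
      rintro ⟨⟨_, h⟩, _⟩
      exact hcon (h i0)
    exact la_pow_ne _ hu h4 _ hi0
  refine (Finset.sum_le_sum hb).trans ?_
  rw [Finset.sum_const, Finset.card_range, nsmul_eq_mul]
  apply le_of_eq
  push_cast
  ring

end Pool.Agent.AVM
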